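import Pool.Agent.Hhelper64.T12.TwoDefs

/-!
Pairs of self-avoiding paths of lengths `m` and `n` from `0` and the probability of the event
`w{1,...,m} ∩ w'{0,...,n} = ∅`, for the honeycomb lattice and the lattice `(3,12^2)`.
-/

namespace Pool.Agent.RAT

open Pool.Agent.Hhelper64.Two

/-- The pairs `(w, w')` of paths of lengths `m` and `n` with `w{1,...,m} ∩ w'{0,...,n} = ∅`. -/
def Pairs2 (L : Set ℂ) (m n : ℕ) : Set ((Fin (m + 1) → ℂ) × (Fin (n + 1) → ℂ)) :=
  {q | q.1 ∈ Omega L m ∧ q.2 ∈ Omega L n ∧ ∀ (i : Fin (m + 1)) (j : Fin (n + 1)), i ≠ 0 → q.1 i ≠ q.2 j}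

/-- The probability that `w{1,...,m}` and `w'{0,...,n}` are disjoint for independent uniform `w, w'` of lengths
`m` and `n`. -/
noncomputable def P2 (L : Set ℂ) (m n : ℕ) : ℝ := ((Pairs2 L m n).ncard : ℝ) / ((a L m : ℝ) * (a L n : ℝ))

end Pool.Agent.RAT
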