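import Pool.Agent.RAT.E.Gen2
import Pool.Agent.RAT.E.Defs
import Pool.Agent.HDN.Two

/-!
The number of disjoint pairs of lengths `n`, `m` on the honeycomb lattice and on the lattice `(3,12^2)` is the
number of paths of length `n + m`.
-/

namespace Pool.Agent.RAT

open Pool.Agent.Hhelper64 Pool.Agent.Hhelper64.T12 Pool.Agent.Hhelper64.Two

/-- Pairs of lengths `n`, `m` in the plane lattice of darts. -/
def PairsX (x : ℂ) (n m : ℕ) : Set ((Fin (n + 1) → ℂ) × (Fin (m + 1) → ℂ)) :=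
  {q | q.1 ∈ ThreeTwelve.Omega x n ∧ q.2 ∈ ThreeTwelve.Omega x m ∧
    ∀ (i : Fin (n + 1)) (j : Fin (m + 1)), i ≠ 0 → q.1 i ≠ q.2 j}

theorem pairsX_eq {d : Dt} (hd : IsD d) (n m : ℕ) : (PairsX (em d) n m).ncard = (PairsH LR d n m).ncard := by
  have : PairsX (em d) n m = (Prod.map (fun (w : Fin (n + 1) → Dt) i => em (w i))
      (fun (w : Fin (m + 1) → Dt) i => em (w i))) '' PairsH LR d n m := by
    ext ⟨w, w'⟩
    constructor
    · rintro ⟨h1, h2, h3⟩
      simp only at h1 h2 h3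
      rw [Omega_eq hd] at h1 h2
      obtain ⟨z, hz, rfl⟩ := h1
      obtain ⟨z', hz', rfl⟩ := h2
      exact ⟨(z, z'), ⟨hz, hz', fun i j hi hij => h3 i j hi (congrArg em hij)⟩, rfl⟩
    · rintro ⟨⟨z, z'⟩, ⟨h1, h2, h3⟩, h4⟩
      simp only [Prod.map_apply, Prod.mk.injEq] at h4
      obtain ⟨rfl, rfl⟩ := h4
      refine ⟨?_, ?_, fun i j hi hij => h3 i j hi (em_inj hij)⟩
      · rw [Omega_eq hd]; exact ⟨z, h1, rfl⟩
      · rw [Omega_eq hd]; exact ⟨z', h2, rfl⟩
  rw [this, Set.ncard_image_of_injective]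
  exact (comp_em_inj n).prodMap (comp_em_inj m)

theorem pairs2_tr (n m : ℕ) : (Pairs2 truncated n m).ncard = (PairsX (em d0) n m).ncard := by
  have h : PairsX (em d0) n m = (Prod.map (fun (w : Fin (n + 1) → ℂ) i => sim (w i))
      (fun (w : Fin (m + 1) → ℂ) i => sim (w i))) '' Pairs2 truncated n m := by
    ext ⟨y, y'⟩
    constructor
    · rintro ⟨h1, h2, h3⟩
      obtain ⟨w, rfl⟩ := exists_pre y
      obtain ⟨w', rfl⟩ := exists_pre y'
      exact ⟨(w, w'), ⟨mem_Omega.1 h1, mem_Omega.1 h2, fun i j hi hij => h3 i j hi (congrArg sim hij)⟩, rfl⟩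
    · rintro ⟨⟨w, w'⟩, ⟨h1, h2, h3⟩, h4⟩
      simp only [Prod.map_apply, Prod.mk.injEq] at h4
      obtain ⟨rfl, rfl⟩ := h4
      exact ⟨mem_Omega.2 h1, mem_Omega.2 h2, fun i j hi hij => h3 i j hi (sim_inj hij)⟩
  rw [h, Set.ncard_image_of_injective]
  exact (comp_inj n).prodMap (comp_inj m)

/-- Two lengths, both lattices. -/
theorem pairs2_card (L : Set ℂ) (hL : L = honeycomb ∨ L = truncated) (n m : ℕ) :
    (Pairs2 L n m).ncard = a L (n + m) := by
  rcases hL with rfl | rfl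
  · exact Pool.Agent.HDN.pairs2_card n m
  · rw [pairs2_tr, pairsX_eq isD_d0, pairsH_card homog, a_tr]
    exact (a_eq_bn (em_mem isD_d0) (n + m)).symm

theorem P2_eq (L : Set ℂ) (hL : L = honeycomb ∨ L = truncated) (n m : ℕ) :
    P2 L n m = (a L (n + m) : ℝ) / ((a L n : ℝ) * (a L m : ℝ)) := by
  unfold P2
  rw [pairs2_card L hL]

end Pool.Agent.RAT
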