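import Pool.Agent.RAT.E.TL
import Pool.Agent.HDN.TwoP

/-!
Project RAT: bounds for the probability that paths of lengths `n` and `N` on the honeycomb lattice or on the lattice
`(3,12^2)` do not intersect: a lower bound for all `n ≤ N`, an upper bound for `N ≥ n^5`, an upper bound for the
geometric mean over `N = n, 2n, ..., Kn`, and the product form for equal lengths.
-/

namespace Pool.Agent.RAT

open Pool.Agent.Hhelper14 Pool.Agent.Hhelper64.Two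

/-- The geometric mean over `N = n, 2n, ..., Kn`, abstract form. -/
theorem geoMean {a : ℕ → ℝ} (hpos : ∀ n, 0 < a n) {μ κ c D : ℝ} (hmu : 0 < μ) (hc : 0 < c) (hD : 0 < D)
    (h1 : ∀ n, μ ^ n ≤ a n)
    (hlow : ∀ n : ℕ, 1 ≤ n → c * (n : ℝ) ^ κ * μ ^ n ≤ a n)
    (hup : ∀ n : ℕ, 1 ≤ n → a n ≤ D * (n : ℝ) ^ D * μ ^ n) (n K : ℕ) (hn : 1 ≤ n) (hK : 1 ≤ K) :
    (∏ i ∈ Finset.range K, a (n + (i + 1) * n) / (a n * a ((i + 1) * n))) ^ (1 / (K : ℝ)) ≤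
      max D 1 * 2 ^ D / c * (n : ℝ) ^ (D / K - κ : ℝ) := by
  have hn0 : (0 : ℝ) < n := by exact_mod_cast hn
  have hn1 : (1 : ℝ) ≤ n := by exact_mod_cast hn
  have hK0 : (0 : ℝ) < K := by exact_mod_cast hK
  have hK1 : (1 : ℝ) ≤ K := by exact_mod_cast hK
  have key : ∀ K : ℕ, ∏ i ∈ Finset.range K, a (n + (i + 1) * n) / (a n * a ((i + 1) * n)) =
      a ((K + 1) * n) / a n ^ (K + 1) := by
    intro K
    induction K with
    | zero => simp [(hpos n).ne']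
    | succ K ih =>
      rw [Finset.prod_range_succ, ih, show n + (K + 1) * n = (K + 1 + 1) * n by ring]
      have e1 := (hpos ((K + 1) * n)).ne'
      have e2 := (hpos n).ne'
      field_simp
      ring
  rw [key]
  set A : ℝ := a n / μ ^ n with hA
  have hm : 0 < μ ^ n := pow_pos hmu n
  have hA1 : 1 ≤ A := by rw [hA, le_div_iff₀ hm, one_mul]; exact h1 n
  have hA2 : c * (n : ℝ) ^ κ ≤ A := by rw [hA, le_div_iff₀ hm]; exact hlow n hn
  have hA0 : 0 < A := by linarith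
  have han : a n = A * μ ^ n := by rw [hA]; field_simp
  have hN : 1 ≤ (K + 1) * n := Nat.mul_pos (by omega) hn
  have e1 : a ((K + 1) * n) / a n ^ (K + 1) ≤ D * (((K + 1) * n : ℕ) : ℝ) ^ D / A ^ K := by
    rw [div_le_div_iff₀ (pow_pos (hpos n) _) (pow_pos hA0 _), han, mul_pow, ← pow_mul, mul_comm n (K + 1)]
    calc a ((K + 1) * n) * A ^ K ≤ (D * (((K + 1) * n : ℕ) : ℝ) ^ D * μ ^ ((K + 1) * n)) * A ^ K := by
          gcongr; exact hup _ hN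
      _ = D * (((K + 1) * n : ℕ) : ℝ) ^ D * (A ^ K * μ ^ ((K + 1) * n)) := by ring
      _ ≤ D * (((K + 1) * n : ℕ) : ℝ) ^ D * (A ^ (K + 1) * μ ^ ((K + 1) * n)) := by
          gcongr
          exact Nat.le_succ K
  have hKi : 0 ≤ 1 / (K : ℝ) := by positivity
  have e2 : (a ((K + 1) * n) / a n ^ (K + 1)) ^ (1 / (K : ℝ)) ≤
      (D * (((K + 1) * n : ℕ) : ℝ) ^ D / A ^ K) ^ (1 / (K : ℝ)) :=
    Real.rpow_le_rpow (div_nonneg (hpos _).le (pow_nonneg (hpos _).le _)) e1 hKi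
  refine e2.trans ?_
  have hcast : (((K + 1) * n : ℕ) : ℝ) = ((K : ℝ) + 1) * n := by push_cast; ring
  rw [hcast, Real.div_rpow (by positivity) (by positivity), Real.mul_rpow hD.le (by positivity),
    Real.mul_rpow (by positivity) hn0.le, Real.mul_rpow (by positivity) (by positivity),
    ← Real.rpow_mul (by positivity), ← Real.rpow_mul hn0.le, ← Real.rpow_natCast A K, ← Real.rpow_mul hA0.le,
    mul_one_div_cancel hK0.ne', Real.rpow_one]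
  have f1 : D ^ (1 / (K : ℝ)) ≤ max D 1 := by
    calc D ^ (1 / (K : ℝ)) ≤ (max D 1) ^ (1 / (K : ℝ)) := Real.rpow_le_rpow hD.le (le_max_left _ _) hKi
      _ ≤ (max D 1) ^ (1 : ℝ) := Real.rpow_le_rpow_of_exponent_le (le_max_right _ _) (by
          rw [div_le_one hK0]; exact hK1)
      _ = max D 1 := Real.rpow_one _
  have f2 : ((K : ℝ) + 1) ^ (D * (1 / (K : ℝ))) ≤ 2 ^ D := by
    have g : (K : ℝ) + 1 ≤ 2 ^ K := by
      have := Nat.lt_two_pow_self (n := K)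
      exact_mod_cast this
    calc ((K : ℝ) + 1) ^ (D * (1 / (K : ℝ))) ≤ ((2 : ℝ) ^ K) ^ (D * (1 / (K : ℝ))) :=
          Real.rpow_le_rpow (by positivity) g (by positivity)
      _ = 2 ^ D := by
          rw [← Real.rpow_natCast (2 : ℝ) K, ← Real.rpow_mul (by norm_num)]
          congr 1
          field_simp
  rw [mul_one_div D, div_le_iff₀ hA0]
  have f3 : (n : ℝ) ^ (D / K) = (n : ℝ) ^ (D / K - κ : ℝ) * (n : ℝ) ^ κ := by
    rw [← Real.rpow_add hn0]; congr 1; ring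
  rw [mul_one_div D] at f2
  calc D ^ (1 / (K : ℝ)) * (((K : ℝ) + 1) ^ (D / (K : ℝ)) * (n : ℝ) ^ (D / (K : ℝ)))
      ≤ max D 1 * (2 ^ D * (n : ℝ) ^ (D / (K : ℝ))) := by gcongr
    _ = max D 1 * 2 ^ D / c * (n : ℝ) ^ (D / K - κ : ℝ) * (c * (n : ℝ) ^ κ) := by
        rw [f3]; field_simp
    _ ≤ max D 1 * 2 ^ D / c * (n : ℝ) ^ (D / K - κ : ℝ) * A := by gcongr

/-- The lower bound for all `n ≤ N`, abstract form. -/
theorem lowAll {a : ℕ → ℝ} (hpos : ∀ n, 0 < a n) {μ C D : ℝ} (hmu : 0 < μ) (hC : 0 < C) (hD : 0 < D)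
    (h1 : ∀ n, μ ^ n ≤ a n)
    (hup : ∀ n : ℕ, 1 ≤ n → a n ≤ D * (n : ℝ) ^ D * μ ^ n)
    (h5 : ∀ n N : ℕ, 1 ≤ n → n ^ 5 ≤ N → (n : ℝ) ^ (-C) / C ≤ a (n + N) / (a n * a N)) (n N : ℕ) (hn : 1 ≤ n)
    (hN : n ≤ N) : (n : ℝ) ^ (-(max C (max (D ^ 2) (6 * D)))) / max C (max (D ^ 2) (6 * D)) ≤
      a (n + N) / (a n * a N) := by
  have hn0 : (0 : ℝ) < n := by exact_mod_cast hn
  have hn1 : (1 : ℝ) ≤ n := by exact_mod_cast hn
  set E : ℝ := max C (max (D ^ 2) (6 * D)) with hE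
  have g1 : C ≤ E := le_max_left _ _
  have g2 : D ^ 2 ≤ E := (le_max_left _ _).trans (le_max_right _ _)
  have g3 : 6 * D ≤ E := (le_max_right _ _).trans (le_max_right _ _)
  have hE0 : 0 < E := hC.trans_le g1
  rcases le_or_gt (n ^ 5) N with h | h
  · refine le_trans ?_ (h5 n N hn h)
    rw [div_le_div_iff₀ hE0 hC]
    have : (n : ℝ) ^ (-E) ≤ (n : ℝ) ^ (-C) := Real.rpow_le_rpow_of_exponent_le hn1 (by linarith)
    have h0 : 0 ≤ (n : ℝ) ^ (-C) := by positivity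
    calc (n : ℝ) ^ (-E) * C ≤ (n : ℝ) ^ (-C) * C := by gcongr
      _ ≤ (n : ℝ) ^ (-C) * E := by gcongr
  · have hN0 : 1 ≤ N := hn.trans hN
    have hNr : (N : ℝ) ≤ (n : ℝ) ^ 5 := by exact_mod_cast h.le
    have i1 := hup n hn
    have i2 := hup N hN0
    have i3 := h1 (n + N)
    have i4 : (N : ℝ) ^ D ≤ (n : ℝ) ^ (5 * D) := by
      calc (N : ℝ) ^ D ≤ ((n : ℝ) ^ 5) ^ D := Real.rpow_le_rpow (Nat.cast_nonneg _) hNr hD.le
        _ = (n : ℝ) ^ (5 * D) := by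
          rw [← Real.rpow_natCast (n : ℝ) 5, ← Real.rpow_mul hn0.le]; norm_num
    rw [div_le_div_iff₀ hE0 (mul_pos (hpos n) (hpos N))]
    have i5 : (n : ℝ) ^ (-E) * ((n : ℝ) ^ D * (n : ℝ) ^ (5 * D)) ≤ 1 := by
      rw [← Real.rpow_add hn0, ← Real.rpow_add hn0]
      exact Real.rpow_le_one_of_one_le_of_nonpos hn1 (by linarith)
    have hmn : 0 < μ ^ n := pow_pos hmu n
    have hmN : 0 < μ ^ N := pow_pos hmu N
    calc (n : ℝ) ^ (-E) * (a n * a N)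
        ≤ (n : ℝ) ^ (-E) * ((D * (n : ℝ) ^ D * μ ^ n) * (D * (n : ℝ) ^ (5 * D) * μ ^ N)) := by
          have := (hpos N).le
          gcongr
          refine i2.trans ?_
          gcongr
      _ = (n : ℝ) ^ (-E) * ((n : ℝ) ^ D * (n : ℝ) ^ (5 * D)) * D ^ 2 * (μ ^ n * μ ^ N) := by ring
      _ ≤ 1 * D ^ 2 * (μ ^ n * μ ^ N) := by gcongr
      _ = D ^ 2 * μ ^ (n + N) := by rw [pow_add]; ring
      _ ≤ E * a (n + N) := by gcongr
      _ = a (n + N) * E := mul_comm _ _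

theorem P2_self (L : Set ℂ) (n : ℕ) : P2 L n n = P L n := by
  unfold P2 P
  rw [sq]
  rfl

/-- All bounds. -/
theorem all_bounds (L : Set ℂ) (hL : L = honeycomb ∨ L = truncated) :
    ∃ C : ℝ, 0 < C ∧
      (∀ n N : ℕ, 1 ≤ n → n ≤ N → (n : ℝ) ^ (-C) / C ≤ P2 L n N) ∧
      (∀ n N : ℕ, 1 ≤ n → n ^ 5 ≤ N → P2 L n N ≤ C * (n : ℝ) ^ (-(1 / 262) : ℝ)) ∧
      (∀ n K : ℕ, 1 ≤ n → 1 ≤ K → (∏ i ∈ Finset.range K, P2 L n ((i + 1) * n)) ^ (1 / (K : ℝ)) ≤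
        C * (n : ℝ) ^ (C / K - 1 / 262 : ℝ)) ∧
      (∀ n k : ℕ, 1 ≤ n → ∏ j ∈ Finset.range k, P2 L (2 ^ j * n) (2 ^ j * n) ^ ((1 / 2 : ℝ) ^ (j + 1)) ≤
        C * (n : ℝ) ^ (C / 2 ^ k - 1 / 262 : ℝ)) := by
  obtain ⟨K, hK, -, up⟩ := an_bounds
  have hp : ∃ C : ℝ, 0 < C ∧ ∀ n : ℕ, 1 ≤ n → (SAW.an n : ℝ) ≤ C * (n : ℝ) ^ C * SAW.mu ^ n := ⟨K, hK, up⟩
  obtain ⟨C₁, hC₁, T⟩ := two_lengths L hL
  obtain ⟨D₂, C₂, hD₂, hC₂, T2⟩ := Pool.Agent.HDN.product2 hp L hL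
  obtain ⟨hmu, hpos, -, hge, ⟨c, hc, hlow⟩, ⟨D, hD, hup⟩⟩ := facts hp L hL
  set E : ℝ := max C₁ (max (D ^ 2) (6 * D)) with hE
  set F : ℝ := max E (max D₂ (max C₂ (max (max D 1 * 2 ^ D / c) D))) with hF
  have a1 : C₁ ≤ E := le_max_left _ _
  have a2 : E ≤ F := le_max_left _ _
  have a3 : D₂ ≤ F := (le_max_left _ _).trans (le_max_right _ _)
  have a4 : C₂ ≤ F := ((le_max_left _ _).trans (le_max_right _ _)).trans (le_max_right _ _)
  have a5 : max D 1 * 2 ^ D / c ≤ F :=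
    (((le_max_left _ _).trans (le_max_right _ _)).trans (le_max_right _ _)).trans (le_max_right _ _)
  have a6 : D ≤ F :=
    (((le_max_right _ _).trans (le_max_right _ _)).trans (le_max_right _ _)).trans (le_max_right _ _)
  have hE0 : 0 < E := hC₁.trans_le a1
  have hF0 : 0 < F := hE0.trans_le a2
  refine ⟨F, hF0, ?_, ?_, ?_, ?_⟩
  · intro n N hn hN
    have hn1 : (1 : ℝ) ≤ n := by exact_mod_cast hn
    have h := lowAll (a := fun n => (a L n : ℝ)) hpos hmu hC₁ hD hge hup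
      (fun n N hn h => by rw [← P2_eq L hL]; exact (T n N hn h).1) n N hn hN
    rw [P2_eq L hL]
    refine le_trans ?_ h
    rw [div_le_div_iff₀ hF0 hE0]
    have : (n : ℝ) ^ (-F) ≤ (n : ℝ) ^ (-E) := Real.rpow_le_rpow_of_exponent_le hn1 (by linarith)
    have h0 : 0 ≤ (n : ℝ) ^ (-E) := by positivity
    calc (n : ℝ) ^ (-F) * E ≤ (n : ℝ) ^ (-E) * E := by gcongr
      _ ≤ (n : ℝ) ^ (-E) * F := by gcongr
  · intro n N hn h
    refine (T n N hn h).2.trans ?_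
    gcongr
    exact a1.trans a2
  · intro n K hn hK
    have hn1 : (1 : ℝ) ≤ n := by exact_mod_cast hn
    have hK0 : (0 : ℝ) < K := by exact_mod_cast hK
    simp only [P2_eq L hL]
    refine (geoMean (a := fun n => (a L n : ℝ)) hpos hmu hc hD hge hlow hup n K hn hK).trans ?_
    have h1 : (n : ℝ) ^ (D / K - 1 / 262 : ℝ) ≤ (n : ℝ) ^ (F / K - 1 / 262 : ℝ) :=
      Real.rpow_le_rpow_of_exponent_le hn1 (by
        have : D / K ≤ F / K := by gcongr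
        linarith)
    gcongr
  · intro n k hn
    have hn1 : (1 : ℝ) ≤ n := by exact_mod_cast hn
    simp only [P2_self]
    refine (T2 n k hn).trans ?_
    have h1 : (n : ℝ) ^ (D₂ / 2 ^ k - 1 / 262 : ℝ) ≤ (n : ℝ) ^ (F / 2 ^ k - 1 / 262 : ℝ) :=
      Real.rpow_le_rpow_of_exponent_le hn1 (by
        have : D₂ / 2 ^ k ≤ F / 2 ^ k := by gcongr
        linarith)
    gcongr

end Pool.Agent.RAT
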