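import Mathlib

/-!
# RAT/E/Abs: the abstract deduction of the theorem for paths of two different lengths

`a` is a positive sequence, `c n^κ μ^n ≤ a n ≤ C n^C μ^n` for `n ≥ 1`, and `c μ^n a N ≤ a (N + n) ≤ C μ^n a N` for `n ≥ 1`, `N ≥ n^5`.  Then
`n^(-C) / C ≤ a (n + N) / (a n a N) ≤ C n^(-κ)` for `n ≥ 1`, `N ≥ n^5`.
-/

namespace Pool.Agent.RAT

/-- **Abstract form**: two-length bounds from comparison of `a (N + n)` with `μ^n a N`. -/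
theorem twoLength {a : ℕ → ℝ} (hpos : ∀ n, 0 < a n) {μ κ : ℝ} (hmu : 0 < μ)
    (hlow : ∃ c : ℝ, 0 < c ∧ ∀ n : ℕ, 1 ≤ n → c * (n : ℝ) ^ κ * μ ^ n ≤ a n)
    (hup : ∃ C : ℝ, 0 < C ∧ ∀ n : ℕ, 1 ≤ n → a n ≤ C * (n : ℝ) ^ C * μ ^ n)
    (cmp : ∃ c C : ℝ, 0 < c ∧ 0 < C ∧ ∀ n N : ℕ, 1 ≤ n → n ^ 5 ≤ N →
      c * μ ^ n * a N ≤ a (N + n) ∧ a (N + n) ≤ C * μ ^ n * a N) :
    ∃ C : ℝ, 0 < C ∧ ∀ n N : ℕ, 1 ≤ n → n ^ 5 ≤ N →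
      (n : ℝ) ^ (-C) / C ≤ a (n + N) / (a n * a N) ∧
      a (n + N) / (a n * a N) ≤ C * (n : ℝ) ^ (-κ) := by
  obtain ⟨c₀, hc₀, hlow⟩ := hlow
  obtain ⟨C₁, hC₁, hup⟩ := hup
  obtain ⟨c, C₂, hc, hC₂, cmp⟩ := cmp
  refine ⟨max C₁ (max (C₁ / c) (C₂ / c₀)), lt_max_of_lt_left hC₁, fun n N hn hN => ?_⟩
  set D : ℝ := max C₁ (max (C₁ / c) (C₂ / c₀)) with hD
  have hD1 : C₁ ≤ D := le_max_left _ _
  have hD2 : C₁ / c ≤ D := (le_max_left _ _).trans (le_max_right _ _)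
  have hD3 : C₂ / c₀ ≤ D := (le_max_right _ _).trans (le_max_right _ _)
  have hD0 : 0 < D := hC₁.trans_le hD1
  have hn1 : (1 : ℝ) ≤ n := by exact_mod_cast hn
  have hn0 : (0 : ℝ) < n := by linarith
  have hμ : 0 < μ ^ n := pow_pos hmu n
  obtain ⟨h1, h2⟩ := cmp n N hn hN
  have ha := hpos n
  have hb := hpos N
  rw [add_comm n N]
  constructor
  · rw [div_le_div_iff₀ hD0 (mul_pos ha hb)]
    have e1 : (n : ℝ) ^ (-D) ≤ (n : ℝ) ^ (-C₁) := Real.rpow_le_rpow_of_exponent_le hn1 (by linarith)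
    have e2 : (n : ℝ) ^ (-C₁) * (n : ℝ) ^ C₁ = 1 := by
      rw [← Real.rpow_add hn0, neg_add_cancel, Real.rpow_zero]
    have e3 := hup n hn
    rw [div_le_iff₀ hc] at hD2
    calc (n : ℝ) ^ (-D) * (a n * a N) ≤ (n : ℝ) ^ (-C₁) * ((C₁ * (n : ℝ) ^ C₁ * μ ^ n) * a N) := by gcongr
      _ = C₁ * μ ^ n * a N * ((n : ℝ) ^ (-C₁) * (n : ℝ) ^ C₁) := by ring
      _ = C₁ * (μ ^ n * a N) := by rw [e2]; ring
      _ ≤ (D * c) * (μ ^ n * a N) := by gcongr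
      _ = (c * μ ^ n * a N) * D := by ring
      _ ≤ a (N + n) * D := by gcongr
  · rw [div_le_iff₀ (mul_pos ha hb)]
    have e2 : (n : ℝ) ^ (-κ) * (n : ℝ) ^ κ = 1 := by
      rw [← Real.rpow_add hn0, neg_add_cancel, Real.rpow_zero]
    have e3 := hlow n hn
    rw [div_le_iff₀ hc₀] at hD3
    calc a (N + n) ≤ C₂ * μ ^ n * a N := h2
      _ = C₂ * (μ ^ n * a N) := by ring
      _ ≤ (D * c₀) * (μ ^ n * a N) := by gcongr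
      _ = D * c₀ * (μ ^ n * a N) * ((n : ℝ) ^ (-κ) * (n : ℝ) ^ κ) := by rw [e2]; ring
      _ = D * (n : ℝ) ^ (-κ) * ((c₀ * (n : ℝ) ^ κ * μ ^ n) * a N) := by ring
      _ ≤ D * (n : ℝ) ^ (-κ) * (a n * a N) := by gcongr

end Pool.Agent.RAT
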