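import Pool.Agent.RAT.E.Pl2
import Pool.Agent.RAT.E.Abs

/-!
Paths of two different lengths on the honeycomb lattice and on the lattice `(3,12^2)`: the final form, from the
comparison of `a (N + n)` with `mu^n a N` on the two lattices.
-/

namespace Pool.Agent.RAT

open Pool.Agent.Hhelper14 Pool.Agent.Hhelper64 Pool.Agent.Hhelper64.T12 Pool.Agent.Hhelper64.Two

/-- Comparison of `a (N + n)` with `μ^n a N` for `N ≥ n^5`. -/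
def Cmp (a : ℕ → ℝ) (μ : ℝ) : Prop :=
  ∃ c C : ℝ, 0 < c ∧ 0 < C ∧ ∀ n N : ℕ, 1 ≤ n → n ^ 5 ≤ N →
    c * μ ^ n * a N ≤ a (N + n) ∧ a (N + n) ≤ C * μ ^ n * a N

theorem cmp_L (h1 : Cmp (fun n => (SAW.an n : ℝ)) SAW.mu) (h2 : Cmp (fun n => (bn n : ℝ)) (1 / xx))
    (L : Set ℂ) (hL : L = honeycomb ∨ L = truncated) : Cmp (fun n => (a L n : ℝ)) (muL L) := by
  rcases hL with rfl | rfl
  · rw [muL_hon, SAW.muL_eq SAW.hw_quant]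
    simp only [a_hon, SAW.a_eq]
    exact h1
  · have h0 : em d0 ∈ ThreeTwelve.V := em_mem isD_d0
    rw [muL_tr, muL_eq' h0]
    simp only [a_tr, a_eq_bn h0]
    exact h2

theorem main_of (hp : ∃ C : ℝ, 0 < C ∧ ∀ n : ℕ, 1 ≤ n → (SAW.an n : ℝ) ≤ C * (n : ℝ) ^ C * SAW.mu ^ n)
    (h1 : Cmp (fun n => (SAW.an n : ℝ)) SAW.mu) (h2 : Cmp (fun n => (bn n : ℝ)) (1 / xx))
    (L : Set ℂ) (hL : L = honeycomb ∨ L = truncated) :
    ∃ C : ℝ, 0 < C ∧ ∀ n N : ℕ, 1 ≤ n → n ^ 5 ≤ N →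
      (n : ℝ) ^ (-C) / C ≤ P2 L n N ∧ P2 L n N ≤ C * (n : ℝ) ^ (-(1 / 262) : ℝ) := by
  obtain ⟨hmu, hpos, -, -, hlow, hup⟩ := facts hp L hL
  simp only [P2_eq L hL]
  exact twoLength (a := fun n => (a L n : ℝ)) hpos hmu hlow hup (cmp_L h1 h2 L hL)

end Pool.Agent.RAT
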