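import Pool.Agent.Hhelper64.T12.Two

/-!
Pairs of disjoint paths of lengths `n` and `m` from the base vertex of a homogeneous graph: their number is the
number of paths of length `n + m`.
-/

namespace Pool.Agent.RAT

open Pool.Agent.Hhelper64.T12

variable {X : Type*}

/-- Pairs of disjoint paths of lengths `n`, `m`. -/
def PairsH (R : X → X → Prop) (x : X) (n m : ℕ) : Set ((Fin (n + 1) → X) × (Fin (m + 1) → X)) :=
  {q | q.1 ∈ SF R x n ∧ q.2 ∈ SF R x m ∧ ∀ (i : Fin (n + 1)) (j : Fin (m + 1)), i ≠ 0 → q.1 i ≠ q.2 j}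

lemma PairsH_finite {R : X → X → Prop} (hR : ∀ y, {z | R z y}.Finite) (x : X) (n m : ℕ) :
    (PairsH R x n m).Finite :=
  Set.Finite.subset ((SF_finite hR x n).prod (SF_finite hR x m)) fun _ hq => ⟨hq.1, hq.2.1⟩

theorem pairsH_le {R : X → X → Prop} {S : Set X} {x : X} {τ : X → X → X} (H : Homog R S x τ) (n m : ℕ) :
    (PairsH R x n m).ncard ≤ (SF R x (n + m)).ncard := by
  have hlt : ∀ k : ℕ, n - k < n + 1 := fun k => by omega
  have hlt2 : ∀ i : Fin (n + m + 1), (i : ℕ) - n < m + 1 := fun i => by omega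
  set f : (Fin (n + 1) → X) × (Fin (m + 1) → X) → (Fin (n + m + 1) → X) := fun q i =>
    τ (q.1 (Fin.last n)) (if (i : ℕ) ≤ n then q.1 ⟨n - i, hlt i⟩ else q.2 ⟨i - n, hlt2 i⟩) with hf
  refine Set.ncard_le_ncard_of_injOn f ?_ ?_ (SF_finite H.fin x (n + m))
  · rintro ⟨w, w'⟩ ⟨hw, hw', hd⟩
    have hS := SF_mem H H.base hw
    simp only at hw hw' hd
    refine ⟨?_, fun i => ?_, ?_⟩
    · simp only [hf, Fin.val_zero, Nat.zero_le, if_true, Nat.sub_zero]
      exact H.move _ (hS _)
    · simp only [hf, Fin.val_succ, Fin.val_castSucc]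
      apply H.map _ (hS _)
      by_cases h1 : (i : ℕ) + 1 ≤ n
      · rw [if_pos h1, if_pos (by omega)]
        have := hw.2.1 ⟨n - (i + 1), by omega⟩
        have e1 : (⟨n - (i + 1), by omega⟩ : Fin n).castSucc = ⟨n - (i + 1), hlt _⟩ := rfl
        have e2 : (⟨n - (i + 1), by omega⟩ : Fin n).succ = ⟨n - i, hlt _⟩ := Fin.ext (by simp; omega)
        rw [e1, e2] at this
        exact H.symm _ _ this
      · by_cases h2 : (i : ℕ) ≤ n
        · rw [if_neg h1, if_pos h2]
          have hi : (i : ℕ) = n := by omega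
          have e1 : (⟨n - i, hlt i⟩ : Fin (n + 1)) = 0 := Fin.ext (by simp; omega)
          have hn : 0 < m := by omega
          have e2 : (⟨i + 1 - n, by omega⟩ : Fin (m + 1)) = (⟨0, hn⟩ : Fin m).succ := Fin.ext (by simp; omega)
          rw [e1, hw.1, ← hw'.1]
          have := hw'.2.1 ⟨0, hn⟩
          rw [← e2] at this
          exact this
        · rw [if_neg h1, if_neg h2]
          have := hw'.2.1 ⟨i - n, by omega⟩
          have e2 : (⟨i - n, by omega⟩ : Fin m).succ = ⟨i + 1 - n, by omega⟩ := Fin.ext (by simp; omega)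
          rw [e2] at this
          exact this
    · intro i j hij
      simp only [hf] at hij
      have hij' := H.inj _ (hS _) hij
      by_cases h1 : (i : ℕ) ≤ n <;> by_cases h2 : (j : ℕ) ≤ n
      · rw [if_pos h1, if_pos h2] at hij'
        have := hw.2.2 hij'
        simp only [Fin.mk.injEq] at this
        exact Fin.ext (by omega)
      · rw [if_pos h1, if_neg h2] at hij'
        exfalso
        by_cases h3 : (i : ℕ) = n
        · have e1 : (⟨n - i, hlt i⟩ : Fin (n + 1)) = 0 := Fin.ext (by simp; omega)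
          rw [e1, hw.1, ← hw'.1] at hij'
          have := hw'.2.2 hij'
          have := congrArg Fin.val this
          simp only [Fin.val_zero] at this
          omega
        · refine hd _ _ ?_ hij'
          intro h4
          have := congrArg Fin.val h4
          simp only [Fin.val_zero] at this
          omega
      · rw [if_neg h1, if_pos h2] at hij'
        exfalso
        by_cases h3 : (j : ℕ) = n
        · have e1 : (⟨n - j, hlt j⟩ : Fin (n + 1)) = 0 := Fin.ext (by simp; omega)
          rw [e1, hw.1, ← hw'.1] at hij'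
          have := hw'.2.2 hij'
          have := congrArg Fin.val this
          simp only [Fin.val_zero] at this
          omega
        · refine hd _ _ ?_ hij'.symm
          intro h4
          have := congrArg Fin.val h4
          simp only [Fin.val_zero] at this
          omega
      · rw [if_neg h1, if_neg h2] at hij'
        have := hw'.2.2 hij'
        simp only [Fin.mk.injEq] at this
        exact Fin.ext (by omega)
  · rintro ⟨w, w'⟩ ⟨hw, hw', hd⟩ ⟨y, y'⟩ ⟨hy, hy', hd'⟩ heq
    have hS := SF_mem H H.base hw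
    have hS' := SF_mem H H.base hy
    simp only at hw hw' hd hy hy' hd'
    have hlast : w (Fin.last n) = y (Fin.last n) := by
      have h1 := congrFun heq ⟨n, by omega⟩
      simp only [hf, le_refl, if_true, Nat.sub_self] at h1
      have e1 : (⟨0, by omega⟩ : Fin (n + 1)) = 0 := rfl
      rw [e1, hw.1, hy.1] at h1
      exact H.faithful _ (hS _) _ (hS' _) h1
    have key : ∀ i : Fin (n + m + 1), (if (i : ℕ) ≤ n then w ⟨n - i, hlt i⟩ else w' ⟨i - n, hlt2 i⟩) =
        (if (i : ℕ) ≤ n then y ⟨n - i, hlt i⟩ else y' ⟨i - n, hlt2 i⟩) := by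
      intro i
      have h1 := congrFun heq i
      simp only [hf] at h1
      rw [← hlast] at h1
      exact H.inj _ (hS _) h1
    have e1 : w = y := by
      funext i
      have h1 := key ⟨n - i, by omega⟩
      rw [if_pos (by simp), if_pos (by simp)] at h1
      have e2 : (⟨n - ((⟨n - i, by omega⟩ : Fin (n + m + 1)) : ℕ), hlt _⟩ : Fin (n + 1)) = i :=
        Fin.ext (by simp; omega)
      rw [e2] at h1
      exact h1
    have e3 : w' = y' := by
      funext i
      by_cases hi : (i : ℕ) = 0
      · have : i = 0 := Fin.ext (by simpa using hi)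
        rw [this, hw'.1, hy'.1]
      · have h1 := key ⟨n + i, by omega⟩
        have hni : ¬ (n + (i : ℕ) ≤ n) := by omega
        rw [if_neg hni, if_neg hni] at h1
        have e2 : (⟨((⟨n + i, by omega⟩ : Fin (n + m + 1)) : ℕ) - n, hlt2 _⟩ : Fin (m + 1)) = i :=
          Fin.ext (by simp)
        rw [e2] at h1
        exact h1
    rw [e1, e3]

theorem pairsH_ge {R : X → X → Prop} {S : Set X} {x : X} {τ : X → X → X} (H : Homog R S x τ)
    (n m : ℕ) : (SF R x (n + m)).ncard ≤ (PairsH R x n m).ncard := by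
  have hl : ∀ i : Fin (n + 1), n - (i : ℕ) < n + m + 1 := fun i => by omega
  have hr : ∀ i : Fin (m + 1), n + (i : ℕ) < n + m + 1 := fun i => by omega
  have hm : n < n + m + 1 := by omega
  set f : (Fin (n + m + 1) → X) → (Fin (n + 1) → X) × (Fin (m + 1) → X) := fun w =>
    ((fun i => τ (w ⟨n, hm⟩) (w ⟨n - i, hl i⟩)), (fun i => τ (w ⟨n, hm⟩) (w ⟨n + i, hr i⟩))) with hf
  refine Set.ncard_le_ncard_of_injOn f ?_ ?_ (PairsH_finite H.fin x n m)
  · intro w hw
    have hS := SF_mem H H.base hw
    obtain ⟨h0, h1, h2⟩ := hw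
    refine ⟨⟨?_, fun i => ?_, ?_⟩, ⟨?_, fun i => ?_, ?_⟩, fun i j hi hij => ?_⟩
    · exact H.move _ (hS _)
    · simp only [hf]
      apply H.map _ (hS _)
      apply H.symm
      have := h1 ⟨n - (i + 1), by omega⟩
      have e1 : (⟨n - (i + 1), by omega⟩ : Fin (n + m)).castSucc = ⟨n - (i.succ : Fin (n + 1)), hl _⟩ :=
        Fin.ext (by simp)
      have e2 : (⟨n - (i + 1), by omega⟩ : Fin (n + m)).succ = ⟨n - (i.castSucc : Fin (n + 1)), hl _⟩ :=
        Fin.ext (by simp; omega)
      rw [e1, e2] at this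
      exact this
    · intro i j hij
      simp only [hf] at hij
      have := h2 (H.inj _ (hS _) hij)
      simp only [Fin.mk.injEq] at this
      exact Fin.ext (by omega)
    · exact H.move _ (hS _)
    · simp only [hf]
      apply H.map _ (hS _)
      have := h1 ⟨n + i, by omega⟩
      have e1 : (⟨n + i, by omega⟩ : Fin (n + m)).castSucc = ⟨n + (i.castSucc : Fin (m + 1)), hr _⟩ :=
        Fin.ext (by simp)
      have e2 : (⟨n + i, by omega⟩ : Fin (n + m)).succ = ⟨n + (i.succ : Fin (m + 1)), hr _⟩ :=
        Fin.ext (by simp; omega)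
      rw [e1, e2] at this
      exact this
    · intro i j hij
      simp only [hf] at hij
      have := h2 (H.inj _ (hS _) hij)
      simp only [Fin.mk.injEq] at this
      exact Fin.ext (by omega)
    · simp only [hf] at hij
      have := h2 (H.inj _ (hS _) hij)
      simp only [Fin.mk.injEq] at this
      exact hi (Fin.ext (by rw [Fin.val_zero]; omega))
  · intro w hw y hy heq
    have hS := SF_mem H H.base hw
    have hS' := SF_mem H H.base hy
    simp only [hf, Prod.mk.injEq] at heq
    obtain ⟨q1, q2⟩ := heq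
    have hmid : w ⟨n, hm⟩ = y ⟨n, hm⟩ := by
      have h1 := congrFun q1 (Fin.last n)
      have e1 : (⟨n - (Fin.last n : Fin (n + 1)), hl _⟩ : Fin (n + m + 1)) = 0 := Fin.ext (by simp)
      rw [e1, hw.1, hy.1] at h1
      exact H.faithful _ (hS _) _ (hS' _) h1
    funext i
    by_cases hi : (i : ℕ) ≤ n
    · have h1 := congrFun q1 ⟨n - i, by omega⟩
      simp only at h1
      rw [← hmid] at h1
      have h2 := H.inj _ (hS _) h1
      have e1 : (⟨n - (n - (i : ℕ)), by omega⟩ : Fin (n + m + 1)) = i := Fin.ext (by simp; omega)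
      rw [e1] at h2
      exact h2
    · have h1 := congrFun q2 ⟨i - n, by omega⟩
      simp only at h1
      rw [← hmid] at h1
      have h2 := H.inj _ (hS _) h1
      have e1 : (⟨n + ((i : ℕ) - n), by omega⟩ : Fin (n + m + 1)) = i := Fin.ext (by simp; omega)
      rw [e1] at h2
      exact h2

theorem pairsH_card {R : X → X → Prop} {S : Set X} {x : X} {τ : X → X → X} (H : Homog R S x τ)
    (n m : ℕ) : (PairsH R x n m).ncard = (SF R x (n + m)).ncard :=
  le_antisymm (pairsH_le H n m) (pairsH_ge H n m)

end Pool.Agent.RAT
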