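import Pool.Agent.RAT.E.Upper

/-!
Project RAT: one path of exactly `n` steps, for every `n`, and one path of random length, with the law
`x ^ |w| / χ(x)` on the set of all finite self-avoiding paths, `1 - 1/(2n) ≤ x μ < 1`.
-/

namespace Pool.Agent.RAT

open Pool.Agent.Hhelper14 Pool.Agent.Hhelper64.Two

/-- The generating function `χ(x)` of the self-avoiding paths from `0`. -/
noncomputable def chi (L : Set ℂ) (x : ℝ) : ℝ := ∑' m : ℕ, (a L m : ℝ) * x ^ m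

/-- The probability that `w{1,...,n}` and `w'{0,...,|w'|}` are disjoint, for independent self-avoiding paths `w, w'`
from `0`, `w` uniform of length `n`, `w'` of any finite length with probability `x ^ |w'| / χ(x)`. -/
noncomputable def PMix (L : Set ℂ) (n : ℕ) (x : ℝ) : ℝ :=
  (∑' m : ℕ, ((Pairs2 L n m).ncard : ℝ) * x ^ m) / ((a L n : ℝ) * chi L x)

/-- The abstract form. -/
theorem mixed_of {a : ℕ → ℝ} {μ κ c D : ℝ} (hmu : 0 < μ) (hc : 0 < c) (hD : 0 < D) (hpos : ∀ n, 0 < a n)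
    (h1 : ∀ n, μ ^ n ≤ a n) (hlow : ∀ n : ℕ, 1 ≤ n → c * (n : ℝ) ^ κ * μ ^ n ≤ a n)
    (hup : ∀ n : ℕ, 1 ≤ n → a n ≤ D * (n : ℝ) ^ D * μ ^ n) :
    ∃ C : ℝ, 0 < C ∧ ∀ (n : ℕ) (x : ℝ), 1 ≤ n → 1 - 1 / (2 * n) ≤ x * μ → x * μ < 1 →
      (Summable fun m => a m * x ^ m) ∧
      (n : ℝ) ^ (-C) / C ≤ (∑' m, a (n + m) * x ^ m) / (a n * ∑' m, a m * x ^ m) ∧
      (∑' m, a (n + m) * x ^ m) / (a n * ∑' m, a m * x ^ m) ≤ C * (n : ℝ) ^ (-κ) := by
  set E : ℝ := max (a 0) D with hE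
  have hE1 : a 0 ≤ E := le_max_left _ _
  have hE2 : D ≤ E := le_max_right _ _
  have hE0 : 0 < E := hD.trans_le hE2
  set C : ℝ := max (2 / c) (max ((E + 1) * D) (2 * D)) with hC
  have hC1 : 2 / c ≤ C := le_max_left _ _
  have hC2 : (E + 1) * D ≤ C := (le_max_left _ _).trans (le_max_right _ _)
  have hC3 : 2 * D ≤ C := (le_max_right _ _).trans (le_max_right _ _)
  have hC0 : 0 < C := (by positivity : 0 < 2 / c).trans_le hC1
  refine ⟨C, hC0, fun n x hn hx1 hx2 => ?_⟩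
  have hn0 : (0 : ℝ) < n := by exact_mod_cast hn
  have hn1 : (1 : ℝ) ≤ n := by exact_mod_cast hn
  set t : ℝ := x * μ with ht
  have hd : 1 / (2 * (n : ℝ)) ≤ 1 / 2 := by
    apply one_div_le_one_div_of_le (by norm_num); linarith
  have ht0 : 0 < t := by linarith
  have hx0 : 0 < x := by
    by_contra h
    have : x * μ ≤ 0 := mul_nonpos_of_nonpos_of_nonneg (not_lt.1 h) hmu.le
    linarith
  have hterm : ∀ m : ℕ, 1 ≤ m → a m * x ^ m ≤ D * (m : ℝ) ^ D * t ^ m := by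
    intro m hm
    calc a m * x ^ m ≤ D * (m : ℝ) ^ D * μ ^ m * x ^ m := by
          have := hup m hm
          gcongr
      _ = D * (m : ℝ) ^ D * t ^ m := by rw [ht, mul_pow]; ring
  have hsum : Summable fun m => a m * x ^ m := by
    obtain ⟨k, hk⟩ := exists_nat_ge D
    have g : Summable fun m : ℕ => ((m : ℝ) ^ k * t ^ m : ℝ) :=
      summable_pow_mul_geometric_of_norm_lt_one k (by rw [Real.norm_of_nonneg ht0.le]; exact hx2)
    rw [← summable_nat_add_iff 1]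
    have g2 := ((summable_nat_add_iff 1).2 g).mul_left D
    refine Summable.of_nonneg_of_le (fun m => ?_) (fun m => ?_) g2
    · have := (hpos (m + 1)).le
      positivity
    · refine (hterm (m + 1) (by omega)).trans ?_
      have h1 : (1 : ℝ) ≤ ((m + 1 : ℕ) : ℝ) := by push_cast; linarith [(Nat.cast_nonneg m : (0 : ℝ) ≤ m)]
      have h2 : (((m + 1 : ℕ) : ℝ)) ^ D ≤ (((m + 1 : ℕ) : ℝ)) ^ k := by
        rw [← Real.rpow_natCast]
        exact Real.rpow_le_rpow_of_exponent_le h1 hk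
      rw [mul_assoc]
      gcongr
  refine ⟨hsum, ?_⟩
  set F : ℝ := ∑' m, a m * x ^ m with hF
  set T : ℝ := ∑' m, a (m + n) * x ^ (m + n) with hT
  have hsum' : Summable fun m => a (m + n) * x ^ (m + n) := (summable_nat_add_iff n).2 hsum
  have hFT : ∑ k ∈ Finset.range n, a k * x ^ k + T = F := hsum.sum_add_tsum_nat_add n
  have htn : (1 / 2 : ℝ) ≤ t ^ n := by
    have h2 : (1 - 1 / (2 * (n : ℝ))) ^ n ≤ t ^ n := pow_le_pow_left₀ (by linarith) hx1 n
    have h3 : (1 : ℝ) + n * (-(1 / (2 * n))) ≤ (1 + -(1 / (2 * (n : ℝ)))) ^ n :=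
      one_add_mul_le_pow (by linarith) n
    have h4 : (1 : ℝ) + n * (-(1 / (2 * n))) = 1 / 2 := by field_simp; ring
    rw [h4, ← sub_eq_add_neg] at h3
    exact h3.trans h2
  have htn1 : t ^ n ≤ 1 := pow_le_one₀ ht0.le hx2.le
  have hTn : (n : ℝ) ≤ T := by
    have g : Summable fun m : ℕ => t ^ (m + n) := by
      simp only [pow_add]
      exact (summable_geometric_of_lt_one ht0.le hx2).mul_right _
    have h2 : ∑' m : ℕ, t ^ (m + n) ≤ T := by
      refine g.tsum_le_tsum (fun m => ?_) hsum'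
      rw [ht, mul_pow, mul_comm (x ^ (m + n))]
      have := h1 (m + n)
      gcongr
    have h3 : ∑' m : ℕ, t ^ (m + n) = t ^ n * (1 - t)⁻¹ := by
      simp only [pow_add]
      rw [tsum_mul_right, tsum_geometric_of_lt_one ht0.le hx2, mul_comm]
    have h4 : 2 * (n : ℝ) ≤ (1 - t)⁻¹ := by
      rw [le_inv_comm₀ (by positivity) (by linarith)]
      have : (2 * (n : ℝ))⁻¹ = 1 / (2 * n) := (one_div _).symm
      rw [this]; linarith
    rw [h3] at h2
    refine le_trans ?_ h2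
    calc (n : ℝ) = 1 / 2 * (2 * n) := by ring
      _ ≤ t ^ n * (1 - t)⁻¹ := by gcongr
  have hT0 : 0 < T := hn0.trans_le hTn
  have hnD : (1 : ℝ) ≤ (n : ℝ) ^ D := Real.one_le_rpow hn1 hD.le
  have hlow2 : ∑ k ∈ Finset.range n, a k * x ^ k ≤ n * (E * (n : ℝ) ^ D) := by
    have : ∀ k ∈ Finset.range n, a k * x ^ k ≤ E * (n : ℝ) ^ D := by
      intro k hk
      have hkn : k < n := Finset.mem_range.1 hk
      rcases Nat.eq_zero_or_pos k with rfl | hk1
      · rw [pow_zero, mul_one]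
        calc a 0 ≤ E * 1 := by rw [mul_one]; exact hE1
          _ ≤ E * (n : ℝ) ^ D := by gcongr
      · refine (hterm k hk1).trans ?_
        have e1 : (k : ℝ) ^ D ≤ (n : ℝ) ^ D :=
          Real.rpow_le_rpow (Nat.cast_nonneg _) (by exact_mod_cast hkn.le) hD.le
        have e2 : t ^ k ≤ 1 := pow_le_one₀ ht0.le hx2.le
        calc D * (k : ℝ) ^ D * t ^ k ≤ E * (n : ℝ) ^ D * 1 := by gcongr
          _ = E * (n : ℝ) ^ D := mul_one _
    calc ∑ k ∈ Finset.range n, a k * x ^ k ≤ ∑ _k ∈ Finset.range n, E * (n : ℝ) ^ D :=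
          Finset.sum_le_sum this
      _ = n * (E * (n : ℝ) ^ D) := by rw [Finset.sum_const, Finset.card_range, nsmul_eq_mul]
  have hsn : 0 ≤ ∑ k ∈ Finset.range n, a k * x ^ k :=
    Finset.sum_nonneg fun k _ => mul_nonneg (hpos k).le (pow_nonneg hx0.le k)
  have hF1 : T ≤ F := by linarith
  have hF2 : F ≤ (E + 1) * (n : ℝ) ^ D * T := by
    calc F ≤ n * (E * (n : ℝ) ^ D) + T := by linarith
      _ ≤ T * (E * (n : ℝ) ^ D) + (n : ℝ) ^ D * T := by
          have h2 : T ≤ (n : ℝ) ^ D * T := le_mul_of_one_le_left hT0.le hnD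
          gcongr
      _ = (E + 1) * (n : ℝ) ^ D * T := by ring
  have hF0 : 0 < F := hT0.trans_le hF1
  have hxn : 0 < x ^ n := pow_pos hx0 n
  have hS : ∑' m, a (n + m) * x ^ m = T / x ^ n := by
    rw [hT, eq_div_iff hxn.ne', ← tsum_mul_right]
    congr 1
    ext m
    rw [pow_add, add_comm n m]
    ring
  have han := hpos n
  have hxa : x ^ n * a n ≤ D * (n : ℝ) ^ D := by
    have h2 := hterm n hn
    calc x ^ n * a n = a n * x ^ n := mul_comm _ _
      _ ≤ D * (n : ℝ) ^ D * t ^ n := h2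
      _ ≤ D * (n : ℝ) ^ D * 1 := by gcongr
      _ = D * (n : ℝ) ^ D := mul_one _
  have hxa2 : c * (n : ℝ) ^ κ * (1 / 2) ≤ x ^ n * a n := by
    calc c * (n : ℝ) ^ κ * (1 / 2) ≤ c * (n : ℝ) ^ κ * t ^ n := by gcongr
      _ = x ^ n * (c * (n : ℝ) ^ κ * μ ^ n) := by rw [ht, mul_pow]; ring
      _ ≤ x ^ n * a n := by
          have := hlow n hn
          gcongr
  rw [hS, div_div]
  have hden : 0 < x ^ n * (a n * F) := by positivity
  constructor
  · rw [div_le_div_iff₀ hC0 hden]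
    have e1 : (n : ℝ) ^ (-C) * ((n : ℝ) ^ D * (n : ℝ) ^ D) ≤ 1 := by
      rw [← Real.rpow_add hn0, ← Real.rpow_add hn0]
      exact Real.rpow_le_one_of_one_le_of_nonpos hn1 (by linarith)
    calc (n : ℝ) ^ (-C) * (x ^ n * (a n * F)) = (n : ℝ) ^ (-C) * ((x ^ n * a n) * F) := by ring
      _ ≤ (n : ℝ) ^ (-C) * ((D * (n : ℝ) ^ D) * ((E + 1) * (n : ℝ) ^ D * T)) := by gcongr
      _ = ((n : ℝ) ^ (-C) * ((n : ℝ) ^ D * (n : ℝ) ^ D)) * ((E + 1) * D) * T := by ring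
      _ ≤ 1 * C * T := by gcongr
      _ = T * C := by ring
  · rw [div_le_iff₀ hden]
    have e2 : (n : ℝ) ^ (-κ) * (n : ℝ) ^ κ = 1 := by
      rw [← Real.rpow_add hn0]; simp
    calc T ≤ F := hF1
      _ = 2 / c * (n : ℝ) ^ (-κ) * (c * (n : ℝ) ^ κ * (1 / 2) * F) := by
          rw [show 2 / c * (n : ℝ) ^ (-κ) * (c * (n : ℝ) ^ κ * (1 / 2) * F) =
            (2 / c * c) * ((n : ℝ) ^ (-κ) * (n : ℝ) ^ κ) * (1 / 2) * F by ring, e2]
          field_simp
      _ ≤ C * (n : ℝ) ^ (-κ) * (x ^ n * a n * F) := by gcongr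
      _ = C * (n : ℝ) ^ (-κ) * (x ^ n * (a n * F)) := by ring

/-- The mixed ensemble, for every `n`. -/
theorem mixed (L : Set ℂ) (hL : L = honeycomb ∨ L = truncated) :
    ∃ C : ℝ, 0 < C ∧ ∀ (n : ℕ) (x : ℝ), 1 ≤ n → 1 - 1 / (2 * n) ≤ x * muL L → x * muL L < 1 →
      (Summable fun m => (a L m : ℝ) * x ^ m) ∧
      (n : ℝ) ^ (-C) / C ≤ PMix L n x ∧ PMix L n x ≤ C * (n : ℝ) ^ (-(1 / 262) : ℝ) := by
  obtain ⟨K, hK, -, up⟩ := an_bounds
  have hp : ∃ C : ℝ, 0 < C ∧ ∀ n : ℕ, 1 ≤ n → (SAW.an n : ℝ) ≤ C * (n : ℝ) ^ C * SAW.mu ^ n := ⟨K, hK, up⟩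
  obtain ⟨hmu, hpos, -, hge, ⟨c, hc, hlow⟩, ⟨D, hD, hup⟩⟩ := facts hp L hL
  have h := mixed_of (a := fun n => (a L n : ℝ)) hmu hc hD hpos hge hlow hup
  unfold PMix chi
  simpa only [pairs2_card L hL] using h

end Pool.Agent.RAT
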