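import Pool.Agent.RAT.B.Cmp
import Pool.Agent.RAT.T12.Main

/-!
Project RAT: paths of two different lengths on the honeycomb lattice and on the lattice `(3,12^2)`.
-/

namespace Pool.Agent.RAT

open Pool.Agent.Hhelper14 Pool.Agent.Hhelper64.Two

/-- Two lengths `n` and `N ≥ n^5`. -/
theorem two_lengths (L : Set ℂ) (hL : L = honeycomb ∨ L = truncated) :
    ∃ C : ℝ, 0 < C ∧ ∀ n N : ℕ, 1 ≤ n → n ^ 5 ≤ N →
      (n : ℝ) ^ (-C) / C ≤ P2 L n N ∧ P2 L n N ≤ C * (n : ℝ) ^ (-(1 / 262) : ℝ) := by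
  obtain ⟨K, hK, -, up⟩ := an_bounds
  have hp : ∃ C : ℝ, 0 < C ∧ ∀ n : ℕ, 1 ≤ n → (SAW.an n : ℝ) ≤ C * (n : ℝ) ^ C * SAW.mu ^ n := ⟨K, hK, up⟩
  exact main_of hp cmp_plane (T12.cmp_bn hp) L hL

end Pool.Agent.RAT
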